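import Pool.Agent.Helper30.LK.St

/-!
# Project LK, module CN3: the number of the surviving primes
-/

set_option autoImplicit false

noncomputable section

namespace Pool.Agent.Helper7.LK

open Finset ArithmeticFunction Filter
open Pool.Agent.Helper18.TR (StFL)
open Pool.Agent.Helper15.AB (StMT)
open Pool.Agent.Helper48.BK (StSW th)
open Pool.Agent.Helper30.PB (StPRP StPIP)
open Pool.Agent.Helper30.LK

/-- a root of `r ^ 2 + r + 1` -/
private theorem root_exists (l : ℕ) (hl : l.Prime ∧ l % 3 = 1) :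
    ∃ r : ℕ, 1 ≤ r ∧ r + 1 < l ∧ 2 * r + 1 ≠ l ∧ l ∣ r ^ 2 + r + 1 := by
  obtain ⟨hl, h3⟩ := hl
  have : Fact l.Prime := ⟨hl⟩
  have : Fact (Nat.Prime 3) := ⟨Nat.prime_three⟩
  have hcard : 3 ∣ Fintype.card (ZMod l)ˣ := by
    rw [ZMod.card_units_eq_totient, Nat.totient_prime hl]
    omega
  obtain ⟨u, hu⟩ := exists_prime_orderOf_dvd_card 3 hcard
  have h1 : (u : ZMod l) ^ 3 = 1 := by
    have h0 := pow_orderOf_eq_one u
    rw [hu] at h0
    have h00 := congrArg Units.val h0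
    rwa [Units.val_pow_eq_pow_val, Units.val_one] at h00
  have h2 : (u : ZMod l) ≠ 1 := by
    intro h
    have h0 : u = 1 := Units.ext h
    rw [h0, orderOf_one] at hu
    omega
  have h4 : (u : ZMod l) ^ 2 + u + 1 = 0 := by
    have h5 : ((u : ZMod l) - 1) * ((u : ZMod l) ^ 2 + u + 1) = 0 := by
      linear_combination h1
    rcases mul_eq_zero.1 h5 with h6 | h6
    · exact absurd (sub_eq_zero.1 h6) h2
    · exact h6
  obtain ⟨r, hr⟩ : ∃ r : ℕ, r = (u : ZMod l).val := ⟨_, rfl⟩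
  have hrl : r < l := by rw [hr]; exact ZMod.val_lt _
  have hru : ((r : ℕ) : ZMod l) = u := by rw [hr]; exact ZMod.natCast_zmod_val _
  have hdvd : l ∣ r ^ 2 + r + 1 := by
    rw [← ZMod.natCast_eq_zero_iff]
    push_cast
    rw [hru]
    exact h4
  refine ⟨r, ?_, ?_, ?_, hdvd⟩
  · rcases Nat.eq_zero_or_pos r with h | h
    · rw [h] at hdvd
      exact absurd (Nat.dvd_one.1 hdvd) hl.one_lt.ne'
    · exact h
  · by_contra h
    have h6 : r + 1 = l := by omega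
    have h7 : r ^ 2 + r + 1 = r * (r + 1) + 1 := by ring
    rw [h7, h6] at hdvd
    have h8 := (Nat.dvd_add_right (Dvd.intro_left r rfl : l ∣ r * l)).1 hdvd
    exact hl.one_lt.ne' (Nat.dvd_one.1 h8)
  · intro h
    have h7 : 4 * (r ^ 2 + r + 1) = (2 * r + 1) * (2 * r + 1) + 3 := by ring
    have h8 : l ∣ 4 * (r ^ 2 + r + 1) := Dvd.dvd.mul_left hdvd 4
    rw [h7, h] at h8
    have h9 := (Nat.dvd_add_right (Dvd.intro l rfl : l ∣ l * l)).1 h8
    have h10 := (Nat.prime_dvd_prime_iff_eq hl Nat.prime_three).1 h9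
    omega

open Classical in
/-- the classes which are removed -/
private def SS (R : ℕ → ℕ) (L : ℝ) (l : ℕ) : Finset ℕ :=
  if l % 3 = 1 then {0, R l, l - 1 - R l} else if l % 3 = 2 ∧ L < (l : ℝ) then {0, 1, l - 2} else {0}

private theorem card_3 {a b c : ℕ} (h1 : a ≠ b) (h2 : a ≠ c) (h3 : b ≠ c) :
    ({a, b, c} : Finset ℕ).card = 3 := Finset.card_eq_three.2 ⟨a, b, c, h1, h2, h3, rfl⟩

/-- properties of the root function -/
private def RP (R : ℕ → ℕ) : Prop := ∀ l : ℕ, l.Prime ∧ l % 3 = 1 →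
  1 ≤ R l ∧ R l + 1 < l ∧ 2 * R l + 1 ≠ l ∧ l ∣ R l ^ 2 + R l + 1

private theorem SS_ok {R : ℕ → ℕ} (hR : RP R) (L : ℝ) (l : ℕ) (hl : l.Prime) (h7 : 7 ≤ l) :
    (∀ s ∈ SS R L l, s < l) ∧ (SS R L l).card ≤ 3 := by
  unfold SS
  split_ifs with h1 h2
  · obtain ⟨r1, r2, r3, r4⟩ := hR l ⟨hl, h1⟩
    refine ⟨?_, Finset.card_le_three⟩
    intro s hs
    simp only [Finset.mem_insert, Finset.mem_singleton] at hs
    rcases hs with h | h | h
    · omega
    · omega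
    · omega
  · refine ⟨?_, Finset.card_le_three⟩
    intro s hs
    simp only [Finset.mem_insert, Finset.mem_singleton] at hs
    rcases hs with h | h | h
    · omega
    · omega
    · omega
  · refine ⟨?_, ?_⟩
    · intro s hs
      rw [Finset.mem_singleton] at hs
      omega
    · rw [Finset.card_singleton]
      omega

private theorem SS_card {R : ℕ → ℕ} (hR : RP R) (L : ℝ) (l : ℕ) (hl : l.Prime) (h7 : 7 ≤ l) :
    (3 : ℝ) / l - 2 * (if l % 3 = 2 ∧ (l : ℝ) ≤ L then (1 : ℝ) / l else 0) ≤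
      ((SS R L l).card : ℝ) / l := by
  have hl0 : (0 : ℝ) < (l : ℝ) := by exact_mod_cast hl.pos
  have hl1 : (0 : ℝ) < 1 / (l : ℝ) := by positivity
  have h3 : ¬ l % 3 = 0 := by
    intro h
    have h4 : 3 ∣ l := Nat.dvd_of_mod_eq_zero h
    have h5 := (Nat.prime_dvd_prime_iff_eq Nat.prime_three hl).1 h4
    omega
  have hite : (0 : ℝ) ≤ (if l % 3 = 2 ∧ (l : ℝ) ≤ L then (1 : ℝ) / l else 0) := by
    split_ifs
    · exact hl1.le
    · exact le_refl _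
  unfold SS
  by_cases h1 : l % 3 = 1
  · rw [if_pos h1]
    obtain ⟨r1, r2, r3, r4⟩ := hR l ⟨hl, h1⟩
    rw [card_3 (by omega) (by omega) (by omega)]
    push_cast
    linarith
  · rw [if_neg h1]
    have h2 : l % 3 = 2 := by omega
    by_cases h4 : L < (l : ℝ)
    · have hA : ¬ (l % 3 = 2 ∧ (l : ℝ) ≤ L) := fun h => absurd h.2 (not_le.2 h4)
      have hB : l % 3 = 2 ∧ L < (l : ℝ) := ⟨h2, h4⟩
      rw [if_neg hA, if_pos hB, card_3 (by omega) (by omega) (by omega)]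
      push_cast
      linarith
    · have hA : l % 3 = 2 ∧ (l : ℝ) ≤ L := ⟨h2, not_lt.1 h4⟩
      have hB : ¬ (l % 3 = 2 ∧ L < (l : ℝ)) := fun h => h4 h.2
      rw [if_pos hA, if_neg hB, Finset.card_singleton]
      push_cast
      have h5 : (3 : ℝ) / l = 3 * (1 / l) := by ring
      rw [h5]
      linarith

/-- a surviving prime `p` larger than `l` is in none of the classes -/
private theorem not_mem_SS {R : ℕ → ℕ} (hR : RP R) {x p l : ℕ} (hp : Al3 x p) (hl : l.Prime)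
    (h7 : 7 ≤ l) (hlp : l < p) (hlx : 2 * l ≤ x) : p % l ∉ SS R (Real.log x ^ 13) l := by
  intro hmem
  have h0 : p % l ≠ 0 := by
    intro h
    have h1 : l ∣ p := Nat.dvd_of_mod_eq_zero h
    have h2 := (Nat.prime_dvd_prime_iff_eq hl hp.1.1).1 h1
    omega
  have hmod : (p : ℤ) ≡ ((p % l : ℕ) : ℤ) [ZMOD l] := by
    push_cast
    exact (Int.mod_modEq _ _).symm
  have hq : (l : ℤ) ∣ (((p % l : ℕ) : ℤ)) - (p : ℤ) := hmod.dvd
  unfold SS at hmem
  by_cases h1 : l % 3 = 1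
  · rw [if_pos h1] at hmem
    obtain ⟨r1, r2, r3, r4⟩ := hR l ⟨hl, h1⟩
    apply hp.1.2 l hl hlx
    have r4' : (l : ℤ) ∣ (R l : ℤ) ^ 2 + R l + 1 := by exact_mod_cast r4
    simp only [Finset.mem_insert, Finset.mem_singleton] at hmem
    have goal' : (l : ℤ) ∣ (p : ℤ) ^ 2 + p + 1 := by
      rcases hmem with h | h | h
      · exact absurd h h0
      · rw [h] at hq
        have e : (p : ℤ) ^ 2 + p + 1 = ((R l : ℤ) ^ 2 + R l + 1) -
            ((R l : ℤ) - p) * ((R l : ℤ) + p + 1) := by ring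
        rw [e]
        exact dvd_sub r4' (Dvd.dvd.mul_right hq _)
      · rw [h] at hq
        have hc : (((l - 1 - R l : ℕ)) : ℤ) = (l : ℤ) - 1 - R l := by omega
        rw [hc] at hq
        have e : (p : ℤ) ^ 2 + p + 1 = ((R l : ℤ) ^ 2 + R l + 1) -
            ((l : ℤ) - 1 - R l - p) * (p - R l) + l * (p - R l) := by ring
        rw [e]
        exact dvd_add (dvd_sub r4' (Dvd.dvd.mul_right hq _)) (Dvd.intro _ rfl)
    exact_mod_cast goal'
  · rw [if_neg h1] at hmem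
    split_ifs at hmem with h2
    · apply hp.2 l hl h2.1 h2.2 hlx
      simp only [Finset.mem_insert, Finset.mem_singleton] at hmem
      have goal' : (l : ℤ) ∣ 3 - ((p : ℤ) ^ 2 + p + 1) := by
        rcases hmem with h | h | h
        · exact absurd h h0
        · rw [h] at hq
          have e : 3 - ((p : ℤ) ^ 2 + p + 1) = (((1 : ℕ) : ℤ) - p) * (p + 2) := by
            push_cast
            ring
          rw [e]
          exact Dvd.dvd.mul_right hq _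
        · rw [h] at hq
          have hc : (((l - 2 : ℕ)) : ℤ) = (l : ℤ) - 2 := by omega
          rw [hc] at hq
          have e : 3 - ((p : ℤ) ^ 2 + p + 1) = ((l : ℤ) - 2 - p) * (p - 1) - l * (p - 1) := by ring
          rw [e]
          exact dvd_sub (Dvd.dvd.mul_right hq _) (Dvd.intro _ rfl)
      have h5 : ((p ^ 2 + p + 1 : ℕ) : ℤ) ≡ ((3 : ℕ) : ℤ) [ZMOD l] := by
        apply (Int.modEq_iff_dvd).2
        push_cast
        exact goal'
      exact Int.natCast_modEq_iff.1 h5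
    · rw [Finset.mem_singleton] at hmem
      exact h0 hmem

/-- the sum over the primes from 7 -/
private theorem sum_seven (w : ℕ) :
    ∑ l ∈ (Icc 1 w).filter Nat.Prime, (1 : ℝ) / l - 6 ≤
      ∑ l ∈ (Icc 7 w).filter Nat.Prime, (1 : ℝ) / l := by
  classical
  have hsub : (Icc 1 w).filter Nat.Prime ⊆ (Icc 7 w).filter Nat.Prime ∪ Icc 1 6 := by
    intro l hl
    obtain ⟨h1, h2⟩ := Finset.mem_filter.1 hl
    rw [Finset.mem_Icc] at h1
    rw [Finset.mem_union, Finset.mem_filter, Finset.mem_Icc, Finset.mem_Icc]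
    by_cases h : 7 ≤ l
    · exact Or.inl ⟨⟨h, h1.2⟩, h2⟩
    · exact Or.inr ⟨h1.1, by omega⟩
  have h1 : ∑ l ∈ (Icc 1 w).filter Nat.Prime, (1 : ℝ) / l ≤
      ∑ l ∈ (Icc 7 w).filter Nat.Prime ∪ Icc 1 6, (1 : ℝ) / l :=
    Finset.sum_le_sum_of_subset_of_nonneg hsub (fun i _ _ => by positivity)
  have h2 : ∑ l ∈ (Icc 7 w).filter Nat.Prime ∪ Icc 1 6, (1 : ℝ) / l ≤
      ∑ l ∈ (Icc 7 w).filter Nat.Prime, (1 : ℝ) / l + ∑ l ∈ (Icc 1 6 : Finset ℕ), (1 : ℝ) / l := by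
    rw [← Finset.sum_union_inter]
    have : 0 ≤ ∑ l ∈ (Icc 7 w).filter Nat.Prime ∩ Icc 1 6, (1 : ℝ) / l :=
      Finset.sum_nonneg (fun i _ => by positivity)
    linarith
  have h3 : ∑ l ∈ (Icc 1 6 : Finset ℕ), (1 : ℝ) / l ≤ 6 := by
    have h4 : ∑ l ∈ (Icc 1 6 : Finset ℕ), (1 : ℝ) / l ≤ ∑ _l ∈ (Icc 1 6 : Finset ℕ), (1 : ℝ) := by
      apply Finset.sum_le_sum
      intro l hl
      have h5 : (1 : ℝ) ≤ (l : ℝ) := by exact_mod_cast (Finset.mem_Icc.1 hl).1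
      rw [div_le_one (by linarith)]
      exact h5
    simpa using h4
  linarith

/-- CN3. -/
theorem hCN3 (hS : StSVU) (hM : StMT) (h3 : StMR3) : StCN3 := by
  classical
  obtain ⟨C₀, δ, hC₀, hδ, hδ4, hsieve⟩ := hS
  obtain ⟨C₁, hC₁, hmert⟩ := hM
  obtain ⟨C₂, hC₂, hmod⟩ := h3
  choose! R hR using root_exists
  have hRP : RP R := hR
  obtain ⟨K, hK⟩ : ∃ K : ℝ, K = -3 * Real.log δ + 3 * C₁ + 18 + 2 * C₂ := ⟨_, rfl⟩
  refine ⟨13 * C₀ * Real.exp K + 64, by positivity,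
    max 4 (max ⌈Real.exp (Real.exp 1)⌉₊ ⌈(3 : ℝ) ^ (1 / δ)⌉₊), ?_⟩
  intro x y hx hxy hyx
  have hx4 : 4 ≤ x := le_trans (le_max_left _ _) hx
  have hxe : Real.exp (Real.exp 1) ≤ (x : ℝ) :=
    Nat.ceil_le.1 (le_trans (le_trans (le_max_left _ _) (le_max_right _ _)) hx)
  have hx3 : (3 : ℝ) ^ (1 / δ) ≤ (x : ℝ) :=
    Nat.ceil_le.1 (le_trans (le_trans (le_max_right _ _) (le_max_right _ _)) hx)
  have hx0 : (0 : ℝ) < (x : ℝ) := lt_of_lt_of_le (Real.exp_pos _) hxe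
  have hx1 : (1 : ℝ) ≤ (x : ℝ) := by
    have : 1 ≤ x := by omega
    exact_mod_cast this
  have hxy' : (x : ℝ) ≤ (y : ℝ) := by exact_mod_cast hxy
  have hy0 : (0 : ℝ) < (y : ℝ) := by linarith
  have hy1 : (1 : ℝ) ≤ (y : ℝ) := by linarith
  obtain ⟨u, hu⟩ : ∃ u : ℝ, u = Real.log x := ⟨_, rfl⟩
  obtain ⟨v, hv⟩ : ∃ v : ℝ, v = Real.log u := ⟨_, rfl⟩
  have hue : Real.exp 1 ≤ u := by
    rw [hu]
    exact (Real.le_log_iff_exp_le hx0).2 hxe
  have hu0 : 0 < u := lt_of_lt_of_le (Real.exp_pos _) hue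
  have hv1 : 1 ≤ v := by
    rw [hv]
    exact (Real.le_log_iff_exp_le hu0).2 hue
  have hu1 : 2 ≤ u := by
    have := Real.add_one_le_exp (1 : ℝ)
    linarith
  -- the number `y ^ δ`
  obtain ⟨z, hz⟩ : ∃ z : ℝ, z = (y : ℝ) ^ δ := ⟨_, rfl⟩
  have hz3 : 3 ≤ z := by
    have h1 : ((3 : ℝ) ^ (1 / δ)) ^ δ ≤ (y : ℝ) ^ δ :=
      Real.rpow_le_rpow (by positivity) (by linarith) hδ.le
    rw [← Real.rpow_mul (by norm_num), one_div, inv_mul_cancel₀ hδ.ne', Real.rpow_one] at h1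
    rw [hz]
    exact h1
  have hz4 : z ≤ (y : ℝ) ^ (1 / 4 : ℝ) := by
    rw [hz]
    exact Real.rpow_le_rpow_of_exponent_le hy1 hδ4
  have hzx : 2 * z ≤ (x : ℝ) := by
    have h1 : (y : ℝ) ^ (1 / 4 : ℝ) ≤ ((x : ℝ) ^ (5 / 4 : ℝ)) ^ (1 / 4 : ℝ) :=
      Real.rpow_le_rpow hy0.le hyx (by norm_num)
    rw [← Real.rpow_mul hx0.le] at h1
    have h2 : (x : ℝ) ^ (5 / 4 * (1 / 4) : ℝ) ≤ (x : ℝ) ^ (1 / 2 : ℝ) :=
      Real.rpow_le_rpow_of_exponent_le hx1 (by norm_num)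
    have h4 : (4 : ℝ) ≤ (x : ℝ) := by exact_mod_cast hx4
    have h5 : (2 : ℝ) ≤ (x : ℝ) ^ (1 / 2 : ℝ) := by
      have h6 : ((4 : ℝ)) ^ (1 / 2 : ℝ) ≤ (x : ℝ) ^ (1 / 2 : ℝ) :=
        Real.rpow_le_rpow (by norm_num) h4 (by norm_num)
      have h7 : (4 : ℝ) ^ (1 / 2 : ℝ) = 2 := by
        rw [show (4 : ℝ) = 2 ^ (2 : ℝ) by norm_num, ← Real.rpow_mul (by norm_num)]
        norm_num
      linarith
    have h8 : (x : ℝ) ^ (1 / 2 : ℝ) * (x : ℝ) ^ (1 / 2 : ℝ) = (x : ℝ) := by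
      rw [← Real.rpow_add hx0]
      norm_num
    have h9 : z ≤ (x : ℝ) ^ (1 / 2 : ℝ) := by linarith
    calc 2 * z ≤ (x : ℝ) ^ (1 / 2 : ℝ) * (x : ℝ) ^ (1 / 2 : ℝ) := by
          apply mul_le_mul h5 h9 (by linarith) (by linarith)
      _ = (x : ℝ) := h8
  -- the count
  obtain ⟨L, hL⟩ : ∃ L : ℝ, L = Real.log x ^ 13 := ⟨_, rfl⟩
  obtain ⟨F, hF⟩ : ∃ F : Finset ℕ, F = (Icc 1 y).filter (fun m : ℕ => ∀ l : ℕ, l.Prime → 7 ≤ l →
    (l : ℝ) ≤ (y : ℝ) ^ δ → m % l ∉ SS R L l) := ⟨_, rfl⟩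
  have hsub : (Icc 1 y).filter (fun p => Al3 x p) ⊆ F ∪ Icc 1 ⌊z⌋₊ := by
    intro p hp
    obtain ⟨h1, h2⟩ := Finset.mem_filter.1 hp
    rw [Finset.mem_union]
    by_cases hpz : (p : ℝ) ≤ z
    · right
      rw [Finset.mem_Icc]
      exact ⟨(Finset.mem_Icc.1 h1).1, Nat.le_floor hpz⟩
    · left
      rw [hF, Finset.mem_filter]
      refine ⟨h1, ?_⟩
      intro l hl h7 hlz
      rw [← hz] at hlz
      rw [hL]
      refine not_mem_SS hRP h2 hl h7 ?_ ?_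
      · have h4 : (l : ℝ) < (p : ℝ) := lt_of_le_of_lt hlz (not_le.1 hpz)
        exact_mod_cast h4
      · have h4 : ((2 * l : ℕ) : ℝ) ≤ (x : ℝ) := by
          push_cast
          linarith
        exact_mod_cast h4
  have hcount : (((Icc 1 y).filter (fun p => Al3 x p)).card : ℝ) ≤ (F.card : ℝ) + z := by
    have h1 := (Finset.card_le_card hsub).trans (Finset.card_union_le _ _)
    rw [Nat.card_Icc] at h1
    have h2 : (((Icc 1 y).filter (fun p => Al3 x p)).card : ℝ) ≤ (F.card : ℝ) + (⌊z⌋₊ : ℝ) := by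
      have h4 : ((Icc 1 y).filter (fun p => Al3 x p)).card ≤ F.card + ⌊z⌋₊ := by omega
      exact_mod_cast h4
    have h5 : (⌊z⌋₊ : ℝ) ≤ z := Nat.floor_le (by linarith)
    linarith
  -- the sieve
  have hy2 : 2 ≤ y := by omega
  have hsv := hsieve y hy2 (SS R L) (fun l hl h7 => SS_ok hRP L l hl h7)
  rw [← hF, ← hz] at hsv
  -- the sum
  obtain ⟨T, hT⟩ : ∃ T : Finset ℕ, T = (Icc 7 ⌊z⌋₊).filter Nat.Prime := ⟨_, rfl⟩
  rw [← hT] at hsv
  have hLu : L = u ^ 13 := by rw [hL, hu]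
  have hL3 : 3 ≤ L := by
    rw [hLu]
    calc (3 : ℝ) ≤ 2 ^ 13 := by norm_num
      _ ≤ u ^ 13 := pow_le_pow_left₀ (by norm_num) hu1 13
  have hlogL : Real.log L = 13 * v := by
    rw [hLu, Real.log_pow, hv]
    norm_num
  have hT1 : Real.log δ + v - C₁ - 6 ≤ ∑ l ∈ T, (1 : ℝ) / l := by
    have h1 := (abs_le.1 (hmert z hz3)).1
    have h2 := sum_seven ⌊z⌋₊
    rw [← hT] at h2
    have h4 : Real.log δ + v ≤ Real.log (Real.log z) := by
      have h5 : Real.log z = δ * Real.log y := by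
        rw [hz, Real.log_rpow hy0]
      have h6 : u ≤ Real.log y := by
        rw [hu]
        exact Real.log_le_log hx0 hxy'
      have h7 : 0 < Real.log y := by linarith
      rw [h5, Real.log_mul hδ.ne' h7.ne', hv]
      have h8 := Real.log_le_log hu0 h6
      linarith
    linarith
  have hT2 : ∑ l ∈ T, (if l % 3 = 2 ∧ (l : ℝ) ≤ L then (1 : ℝ) / l else 0) ≤
      Real.log (13 * v) / 2 + C₂ := by
    have h1 := (hmod L hL3).2
    rw [hlogL] at h1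
    refine le_trans ?_ h1
    rw [← Finset.sum_filter]
    apply Finset.sum_le_sum_of_subset_of_nonneg
    · intro l hl
      obtain ⟨h4, h5, h6⟩ := Finset.mem_filter.1 hl
      rw [hT] at h4
      obtain ⟨h7, h8⟩ := Finset.mem_filter.1 h4
      rw [Finset.mem_filter, Finset.mem_Icc]
      exact ⟨⟨h8.one_lt.le, Nat.le_floor h6⟩, h8, h5⟩
    · intro i _ _
      positivity
  have hT3 : 3 * v - Real.log (13 * v) - K ≤ ∑ l ∈ T, ((SS R L l).card : ℝ) / l := by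
    have h1 : ∑ l ∈ T, ((3 : ℝ) / l - 2 * (if l % 3 = 2 ∧ (l : ℝ) ≤ L then (1 : ℝ) / l else 0)) ≤
        ∑ l ∈ T, ((SS R L l).card : ℝ) / l := by
      apply Finset.sum_le_sum
      intro l hl
      rw [hT] at hl
      obtain ⟨h7, h8⟩ := Finset.mem_filter.1 hl
      exact SS_card hRP L l h8 (Finset.mem_Icc.1 h7).1
    have h2 : ∑ l ∈ T, ((3 : ℝ) / l - 2 * (if l % 3 = 2 ∧ (l : ℝ) ≤ L then (1 : ℝ) / l else 0)) =
        3 * ∑ l ∈ T, (1 : ℝ) / l -
          2 * ∑ l ∈ T, (if l % 3 = 2 ∧ (l : ℝ) ≤ L then (1 : ℝ) / l else 0) := by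
      rw [Finset.sum_sub_distrib, ← Finset.mul_sum]
      congr 1
      rw [Finset.mul_sum]
      apply Finset.sum_congr rfl
      intro l _
      ring
    rw [h2] at h1
    rw [hK]
    linarith
  have hexp : Real.exp (-∑ l ∈ T, ((SS R L l).card : ℝ) / l) ≤ Real.exp K * (13 * v) / u ^ 3 := by
    have h1 : Real.exp (-∑ l ∈ T, ((SS R L l).card : ℝ) / l) ≤
        Real.exp (K + Real.log (13 * v) - 3 * v) := by
      apply Real.exp_le_exp.2
      linarith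
    have h2 : Real.exp (3 * v) = u ^ 3 := by
      have h4 : (3 : ℝ) * v = ((3 : ℕ) : ℝ) * v := by norm_num
      rw [h4, Real.exp_nat_mul, hv, Real.exp_log hu0]
    rw [Real.exp_sub, Real.exp_add, Real.exp_log (by linarith), h2] at h1
    exact h1
  have hmain : (F.card : ℝ) ≤ 13 * C₀ * Real.exp K * (y * v / u ^ 3) := by
    calc (F.card : ℝ) ≤ C₀ * y * Real.exp (-∑ l ∈ T, ((SS R L l).card : ℝ) / l) := hsv
      _ ≤ C₀ * y * (Real.exp K * (13 * v) / u ^ 3) :=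
          mul_le_mul_of_nonneg_left hexp (by positivity)
      _ = 13 * C₀ * Real.exp K * (y * v / u ^ 3) := by ring
  -- small primes
  have hsmall : z ≤ 64 * (y * v / u ^ 3) := by
    have h1 : u ≤ 4 * (x : ℝ) ^ (1 / 4 : ℝ) := by
      have h2 := Real.log_le_rpow_div hx0.le (show (0 : ℝ) < 1 / 4 by norm_num)
      rw [← hu] at h2
      linarith
    have h2 : u ^ 3 ≤ 64 * (x : ℝ) ^ (3 / 4 : ℝ) := by
      calc u ^ 3 ≤ (4 * (x : ℝ) ^ (1 / 4 : ℝ)) ^ 3 := pow_le_pow_left₀ hu0.le h1 3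
        _ = 64 * ((x : ℝ) ^ (1 / 4 : ℝ)) ^ 3 := by ring
        _ = 64 * (x : ℝ) ^ (3 / 4 : ℝ) := by
            rw [← Real.rpow_natCast, ← Real.rpow_mul hx0.le]
            norm_num
    have h4 : (x : ℝ) ^ (3 / 4 : ℝ) ≤ (y : ℝ) ^ (3 / 4 : ℝ) :=
      Real.rpow_le_rpow hx0.le hxy' (by norm_num)
    have h5 : (y : ℝ) ^ (1 / 4 : ℝ) * (y : ℝ) ^ (3 / 4 : ℝ) = (y : ℝ) := by
      rw [← Real.rpow_add hy0]
      norm_num
    have hu3 : 0 < u ^ 3 := by positivity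
    have h6 : z * u ^ 3 ≤ 64 * y := by
      calc z * u ^ 3 ≤ (y : ℝ) ^ (1 / 4 : ℝ) * (64 * (y : ℝ) ^ (3 / 4 : ℝ)) := by
            apply mul_le_mul hz4 (by linarith) hu3.le (by positivity)
        _ = 64 * ((y : ℝ) ^ (1 / 4 : ℝ) * (y : ℝ) ^ (3 / 4 : ℝ)) := by ring
        _ = 64 * y := by rw [h5]
    have h7 : z ≤ 64 * y / u ^ 3 := (le_div_iff₀ hu3).2 h6
    have h8 : 64 * y / u ^ 3 ≤ 64 * (y * v / u ^ 3) := by
      have h9 : 64 * (y * v / u ^ 3) = 64 * y / u ^ 3 * v := by ring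
      rw [h9]
      exact le_mul_of_one_le_right (by positivity) hv1
    linarith
  have hfin : (((Icc 1 y).filter (fun p => Al3 x p)).card : ℝ) ≤
      (13 * C₀ * Real.exp K + 64) * (y * v / u ^ 3) := by
    calc (((Icc 1 y).filter (fun p => Al3 x p)).card : ℝ) ≤ (F.card : ℝ) + z := hcount
      _ ≤ 13 * C₀ * Real.exp K * (y * v / u ^ 3) + 64 * (y * v / u ^ 3) := add_le_add hmain hsmall
      _ = (13 * C₀ * Real.exp K + 64) * (y * v / u ^ 3) := by ring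
  rw [hv, hu] at hfin
  exact hfin

end Pool.Agent.Helper7.LK
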